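import Pool.Agent.H29.Nitecki

set_option autoImplicit false

namespace Pool.Agent.Results.MP_ee56ef_an.Counter

open MeasureTheory

theorem result :
    ∃ (n m : ℕ) (k : Fin m → ℕ), 2 ≤ n ∧ 1 ≤ m ∧ (∀ i, 0 < k i) ∧ (∀ i, ¬ n ∣ k i) ∧
      Finset.univ.gcd k = 1 ∧
      (Finset.univ.image (fun S : Finset (Fin m) => ∑ i ∈ S, k i)).card = n ∧
      0 < volume {x : ℝ | ∃ A : Set (ℕ × Fin m),
        x = ∑' p : ℕ × Fin m, A.indicator (fun p => (k p.2 : ℝ) / (n : ℝ) ^ (p.1 + 1)) p} ∧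
      ∃ S T : Finset (Fin m), ∑ i ∈ S, k i ≠ ∑ i ∈ T, k i ∧
        ∑ i ∈ S, k i ≡ ∑ i ∈ T, k i [MOD n] := by
  refine ⟨12, 4, Pool.Agent.H29.Nitecki.kk, by norm_num, by norm_num, by decide, by decide,
    by decide, by decide, ?_, ∅, {1, 2}, by decide, by decide⟩
  exact lt_of_lt_of_le Pool.Agent.H29.Nitecki.vol_pos
    (measure_mono fun y hy => Pool.Agent.H29.Nitecki.sub y hy)

end Pool.Agent.Results.MP_ee56ef_an.Counter
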